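import Pool.Agent.H70.G0.BVG
import Pool.Agent.H6.G0.Targets

/-!
# Theorem (H0), MP_c59857_nt, row NFB: near type and far type of restricted families
-/

set_option autoImplicit false

open Finset Pool.Agent.H6.N4D Pool.Agent.H3.BT Pool.Agent.H93 Pool.Agent.H93.GS
open Pool.Agent.H6.G9 Pool.Agent.H6.G0

namespace Pool.Agent.H70.G0

/-- amplitudes of small variation, of size at most the mean square: `F = sum_a e(γ_a x) G_a(x)` on
the window `(n, n + N]` -/
def Amp (r N n : ℕ) (V : ℝ) (γ : ℕ → ℝ) (F : ℕ → ℂ) (G : ℕ → ℕ → ℂ) (M : ℕ → ℝ) : Prop :=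
  (∀ x : ℕ, F x = ∑ i ∈ range r, ee (γ i * x) * G i x) ∧ (∀ i, 0 ≤ M i) ∧
  (∀ i < r, ∀ x ∈ Ioc n (n + N), ‖G i x‖ ≤ M i) ∧
  (∀ i < r, ∑ x ∈ Ioo n (n + N), ‖G i (x + 1) - G i x‖ ≤ V * M i) ∧
  ∑ i ∈ range r, M i ^ 2 ≤ V ^ 2 * ((∑ x ∈ Ioc n (n + N), ‖F x‖ ^ 2) / N)

/-- BVC. Centres which need not be separated; the new centres do not depend on the sum of
exponentials. -/
theorem bvc (k : ℕ) : ∀ (r : ℕ) (ρ : ℝ), 0 ≤ ρ → ∃ (V : ℝ) (N₀ : ℕ), 1 ≤ V ∧
    ∀ (N n : ℕ) (γ : ℕ → ℝ), N₀ ≤ N → ∃ γ' : ℕ → ℝ, ∀ (b : ℕ → ℂ) (α : ℕ → ℝ),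
    (∀ l < k, b l ≠ 0 → ∃ i < r, nd (α l - γ i) ≤ ρ / N) →
    ∃ (G : ℕ → ℕ → ℂ) (M : ℕ → ℝ), Amp r N n V γ' (fs k b α) G M := by
  intro r
  induction r with
  | zero =>
    intro ρ _
    refine ⟨1, 0, le_rfl, fun N n γ _ => ⟨fun _ => 0, fun b α h => ?_⟩⟩
    have hb : ∀ l < k, b l = 0 := by
      intro l hl
      by_contra h1
      obtain ⟨i, hi, -⟩ := h l hl h1
      omega
    have h0 : ∀ x, fs k b α x = 0 := by
      intro x
      unfold fs
      apply sum_eq_zero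
      intro l hl
      rw [hb l (mem_range.1 hl), zero_mul]
    refine ⟨fun _ _ => 0, fun _ => 0, fun x => by rw [h0, range_zero, sum_empty],
      fun _ => le_rfl, fun i hi => absurd hi (Nat.not_lt_zero i),
      fun i hi => absurd hi (Nat.not_lt_zero i), ?_⟩
    rw [range_zero, sum_empty]
    positivity
  | succ r ih =>
    intro ρ hρ
    obtain ⟨Λ, V₁, N₁, hΛ, hV₁, h1⟩ := bvg k (r + 1) ρ hρ
    obtain ⟨V₂, N₂, hV₂, h2⟩ := ih (ρ + Λ) (by linarith)
    refine ⟨max V₁ V₂, max N₁ N₂ + 1, le_max_of_le_left hV₁, fun N n γ hN => ?_⟩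
    have hN0 : (0 : ℝ) < N := by exact_mod_cast (show 0 < N by omega)
    by_cases hsep : ∀ i < r + 1, ∀ j < r + 1, i ≠ j → Λ / N ≤ nd (γ i - γ j)
    · refine ⟨γ, fun b α h => ?_⟩
      obtain ⟨G, M, g1, g2, g3, g4, g5⟩ := h1 N n b α γ (by omega) hsep h
      refine ⟨G, M, g1, g2, fun i _ => g3 i, fun i _ => (g4 i).trans ?_, g5.trans ?_⟩
      · exact mul_le_mul_of_nonneg_right (le_max_left _ _) (g2 i)
      · have a1 : V₁ ^ 2 ≤ (max V₁ V₂) ^ 2 := by
          have := le_max_left V₁ V₂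
          gcongr
        exact mul_le_mul_of_nonneg_right a1 (by positivity)
    · push Not at hsep
      obtain ⟨i₀, hi₀, j₀, hj₀, hij, hlt⟩ := hsep
      obtain ⟨γ₁, hγ₁⟩ : ∃ γ₁ : ℕ → ℝ, γ₁ = fun t => if t = j₀ then γ r else γ t := ⟨_, rfl⟩
      obtain ⟨γ', hγ'⟩ := h2 N n γ₁ (by omega)
      refine ⟨γ', fun b α h => ?_⟩
      have key : ∀ t < r + 1, t ≠ j₀ → ∃ t' < r, γ₁ t' = γ t := by
        intro t ht htj
        by_cases h3 : t = r
        · subst h3
          refine ⟨j₀, by omega, ?_⟩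
          rw [hγ₁]
          simp
        · refine ⟨t, by omega, ?_⟩
          rw [hγ₁]
          simp only
          rw [if_neg htj]
      obtain ⟨G, M, g1, g2, g3, g4, g5⟩ := hγ' b α (by
        intro l hl hbl
        obtain ⟨t, ht, ht2⟩ := h l hl hbl
        by_cases htj : t = j₀
        · obtain ⟨t', ht', e1⟩ := key i₀ hi₀ hij
          refine ⟨t', ht', ?_⟩
          rw [e1]
          have a1 := nd_tri (α l) (γ j₀) (γ i₀)
          rw [htj] at ht2
          rw [nd_sub_comm (γ i₀) (γ j₀)] at hlt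
          rw [add_div]
          linarith
        · obtain ⟨t', ht', e1⟩ := key t ht htj
          refine ⟨t', ht', ?_⟩
          rw [e1, add_div]
          have : 0 ≤ Λ / N := by positivity
          linarith)
      refine ⟨fun i x => if i < r then G i x else 0, fun i => if i < r then M i else 0,
        fun x => ?_, fun i => ?_, fun i hi x hx => ?_, fun i hi => ?_, ?_⟩
      · rw [g1 x, sum_range_succ]
        beta_reduce
        rw [if_neg (lt_irrefl r), mul_zero, add_zero]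
        apply sum_congr rfl
        intro i hi
        rw [if_pos (mem_range.1 hi)]
      · beta_reduce
        split_ifs
        · exact g2 i
        · exact le_rfl
      · beta_reduce
        split_ifs with h3
        · exact g3 i h3 x hx
        · rw [norm_zero]
      · beta_reduce
        split_ifs with h3
        · exact (g4 i h3).trans (mul_le_mul_of_nonneg_right (le_max_right _ _) (g2 i))
        · simp
      · rw [sum_range_succ]
        beta_reduce
        rw [if_neg (lt_irrefl r)]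
        have a0 : ∑ i ∈ range r, (if i < r then M i else 0) ^ 2 = ∑ i ∈ range r, M i ^ 2 := by
          apply sum_congr rfl
          intro i hi
          rw [if_pos (mem_range.1 hi)]
        rw [a0]
        have a1 : V₂ ^ 2 ≤ (max V₁ V₂) ^ 2 := by
          have := le_max_right V₁ V₂
          gcongr
        have a2 := g5.trans (mul_le_mul_of_nonneg_right a1 (by positivity))
        simpa using a2

/-- NFB. The two types. -/
theorem nfb (P : ℕ) : ∃ (V : ℝ) (m₁ : ℕ), 1 ≤ V ∧ ∀ (m n : ℕ) (φ : ℕ → ℕ → ℝ)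
    (u : ℕ → ℕ → ℂ), m₁ ≤ m → AdR P m n φ u → ∃ γ' : ℕ → ℝ, ∀ q ∈ EB.QQ m,
    (∃ (G : ℕ → ℕ → ℂ) (M : ℕ → ℝ), Amp P (2 ^ m) n V γ' (fam P φ u q).f G M) ∨
    ∑ j ∈ range P, ‖u j q‖ ≤ V * ar 1 (2 ^ m) n (fun x => ‖(fam P φ u q).f x‖ ^ 2) := by
  obtain ⟨V, N₀, hV, h⟩ := bvc P P P (Nat.cast_nonneg P)
  have hP0 : (0 : ℝ) ≤ P := Nat.cast_nonneg P
  refine ⟨V + P ^ 2 * (P + 1), N₀, by have : (0 : ℝ) ≤ P ^ 2 * (P + 1) := by positivity
                                      linarith, ?_⟩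
  intro m n φ u hm hA
  obtain ⟨γ, hγ⟩ := hA.nf
  have hN : N₀ ≤ 2 ^ m := hm.trans Nat.lt_two_pow_self.le
  obtain ⟨γ', hγ'⟩ := h (2 ^ m) n γ hN
  refine ⟨γ', fun q hq => ?_⟩
  have hP2 : (0 : ℝ) ≤ P ^ 2 * (P + 1) := by positivity
  rcases hγ q hq with h1 | h1
  · left
    obtain ⟨G, M, g1, g2, g3, g4, g5⟩ := hγ' (fun j => u j q) (fun j => φ j q) (by
      intro l hl hul
      obtain ⟨i, hi, h2⟩ := h1 l hl hul
      refine ⟨i, hi, ?_⟩
      push_cast
      exact h2)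
    refine ⟨G, M, g1, g2, g3, fun i hi => (g4 i hi).trans ?_, g5.trans ?_⟩
    · apply mul_le_mul_of_nonneg_right _ (g2 i)
      linarith
    · have a1 : V ^ 2 ≤ (V + P ^ 2 * (P + 1)) ^ 2 := by
        have : 0 ≤ V := by linarith
        gcongr
        linarith
      exact mul_le_mul_of_nonneg_right a1 (by positivity)
  · right
    obtain ⟨Y, hY⟩ : ∃ Y, Y = ar 1 (2 ^ m) n (fun x => ‖(fam P φ u q).f x‖ ^ 2) := ⟨_, rfl⟩
    rw [← hY] at h1 ⊢
    have hY0 : 0 < Y := lt_of_lt_of_le (by positivity) h1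
    have a1 : ∑ j ∈ range P, ‖u j q‖ ≤ P * P := by
      refine (sum_le_sum fun j _ => hA.ad.cb j q).trans (le_of_eq ?_)
      rw [sum_const, card_range, nsmul_eq_mul]
    have a2 : (P : ℝ) * P ≤ P ^ 2 * (P + 1) * Y := by
      rw [div_le_iff₀ (by positivity)] at h1
      have a3 : (0 : ℝ) ≤ P ^ 2 := by positivity
      nlinarith
    have a4 : 0 ≤ V * Y := by positivity
    nlinarith

end Pool.Agent.H70.G0
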