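import Pool.Agent.H70.G0.NFB
import Pool.Agent.H56.HB.Targets

/-!
# Theorem (H0), MP_c59857_nt: restricted families have the properties (N) or (F)
-/

set_option autoImplicit false

open Finset Pool.Agent.H6.N4D Pool.Agent.H3.BT Pool.Agent.H93 Pool.Agent.H93.GS
open Pool.Agent.H6.G9 Pool.Agent.H6.G0 Pool.Agent.H56.HB

namespace Pool.Agent.H70.G0

lemma sum_Ioc_shift {M : Type} [AddCommMonoid M] (f : ℕ → M) (n N : ℕ) :
    ∑ x ∈ Ioc n (n + N), f x = ∑ t ∈ range N, f (n + 1 + t) := by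
  have e0 : Ioc n (n + N) = (range N).map (addLeftEmbedding (n + 1)) := by
    rw [range_eq_Ico, map_add_left_Ico]
    ext x
    rw [mem_Ioc, mem_Ico]
    omega
  rw [e0, sum_map]
  simp only [addLeftEmbedding_apply]

lemma sum_Ioo_shift {M : Type} [AddCommMonoid M] (f : ℕ → M) (n N : ℕ) :
    ∑ x ∈ Ioo n (n + N), f x = ∑ t ∈ range (N - 1), f (n + 1 + t) := by
  have e0 : Ioo n (n + N) = (range (N - 1)).map (addLeftEmbedding (n + 1)) := by
    rw [range_eq_Ico, map_add_left_Ico]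
    ext x
    rw [mem_Ioo, mem_Ico]
    omega
  rw [e0, sum_map]
  simp only [addLeftEmbedding_apply]

/-- the sum at the places of the window -/
lemma fe_shift (P : ℕ) (φ : ℕ → ℕ → ℝ) (u : ℕ → ℕ → ℂ) (n q t : ℕ) :
    fe P φ (fun j q => u j q * ee (φ j q * ((n + 1 : ℕ) : ℝ))) q t =
      (fam P φ u q).f (n + 1 + t) := by
  unfold fe Ex.f fam
  apply sum_congr rfl
  intro j _
  rw [mul_assoc, ← ee_add]
  congr 2
  push_cast
  ring

lemma ms_shift (P m : ℕ) (φ : ℕ → ℕ → ℝ) (u : ℕ → ℕ → ℂ) (n q : ℕ) :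
    ms m (fe P φ (fun j q => u j q * ee (φ j q * ((n + 1 : ℕ) : ℝ))) q) =
      ar 1 (2 ^ m) n (fun x => ‖(fam P φ u q).f x‖ ^ 2) := by
  unfold ms ar
  have h1 : (Ioc n (n + 2 ^ m)).filter (fun x => 1 ∣ x) = Ioc n (n + 2 ^ m) :=
    filter_true_of_mem fun m _ => one_dvd m
  rw [h1, sum_Ioc_shift]
  have h2 : ∀ t, ‖fe P φ (fun j q => u j q * ee (φ j q * ((n + 1 : ℕ) : ℝ))) q t‖ ^ 2 =
      ‖(fam P φ u q).f (n + 1 + t)‖ ^ 2 := by
    intro t
    rw [fe_shift]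
  rw [sum_congr rfl fun t _ => h2 t]
  push_cast
  ring

/-- NFC. Restricted families of the window `(n, n + 2 ^ m]`, relative places. -/
theorem nfc (P : ℕ) : ∃ (V : ℝ) (m₁ : ℕ), 1 ≤ V ∧ ∀ (m n : ℕ) (φ : ℕ → ℕ → ℝ)
    (u : ℕ → ℕ → ℂ), m₁ ≤ m → AdR P m n φ u →
    NF m P V φ (fun j q => u j q * ee (φ j q * ((n + 1 : ℕ) : ℝ))) := by
  obtain ⟨V, m₁, hV, h⟩ := nfb P
  refine ⟨V ^ 2, m₁, one_le_pow₀ hV, ?_⟩
  intro m n φ u hm hA
  have hV0 : 0 ≤ V := by linarith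
  have hV2 : V ≤ V ^ 2 := by nlinarith
  refine ⟨fun j q => ?_, hA.ad.nc, ?_⟩
  · rw [norm_mul, norm_ee, mul_one]
    exact hA.ad.cb j q
  obtain ⟨γ', hγ'⟩ := h m n φ u hm hA
  refine ⟨γ', fun q hq => ?_⟩
  rcases hγ' q hq with ⟨G, M, g1, g2, g3, g4, g5⟩ | h1
  · left
    have hms : (∑ x ∈ Ioc n (n + 2 ^ m), ‖(fam P φ u q).f x‖ ^ 2) / ((2 ^ m : ℕ) : ℝ) =
        ms m (fe P φ (fun j q => u j q * ee (φ j q * ((n + 1 : ℕ) : ℝ))) q) := by
      rw [ms_shift]
      unfold ar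
      have h1 : (Ioc n (n + 2 ^ m)).filter (fun x => 1 ∣ x) = Ioc n (n + 2 ^ m) :=
        filter_true_of_mem fun m _ => one_dvd m
      rw [h1]
      push_cast
      ring
    obtain ⟨Y, hY⟩ : ∃ Y, Y = ms m (fe P φ (fun j q => u j q *
      ee (φ j q * ((n + 1 : ℕ) : ℝ))) q) := ⟨_, rfl⟩
    rw [hms, ← hY] at g5
    have hY0 : 0 ≤ Y := by
      rw [hY]
      unfold ms
      positivity
    have hM : ∀ a < P, M a ≤ V * √Y := by
      intro a ha
      have h2 : M a ^ 2 ≤ V ^ 2 * Y :=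
        (single_le_sum (f := fun i => M i ^ 2) (fun _ _ => sq_nonneg _)
          (mem_range.2 ha)).trans g5
      have h3 : (V * √Y) ^ 2 = V ^ 2 * Y := by
        rw [mul_pow, Real.sq_sqrt hY0]
      have h4 : 0 ≤ V * √Y := by positivity
      rw [← h3] at h2
      exact (abs_le_of_sq_le_sq' h2 h4).2
    refine ⟨fun a t => G a (n + 1 + t) * ee (γ' a * ((n + 1 : ℕ) : ℝ)), ?_, ?_⟩
    · intro t _
      rw [fe_shift, g1]
      apply sum_congr rfl
      intro a _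
      rw [mul_assoc, ← ee_add, mul_comm]
      congr 2
      push_cast
      ring
    · intro a ha
      have hMa := hM a ha
      have hs : 0 ≤ √Y := Real.sqrt_nonneg _
      rw [← hY]
      refine ⟨fun t ht => ?_, ?_⟩
      · rw [norm_mul, norm_ee, mul_one]
        have h2 := g3 a ha (n + 1 + t) (by rw [mem_Ioc]; omega)
        have h3 : V * √Y ≤ V ^ 2 * √Y := mul_le_mul_of_nonneg_right hV2 hs
        linarith
      · have h2 := g4 a ha
        rw [sum_Ioo_shift (fun x => ‖G a (x + 1) - G a x‖)] at h2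
        have h3 : ∀ t, ‖G a (n + 1 + (t + 1)) * ee (γ' a * ((n + 1 : ℕ) : ℝ)) -
            G a (n + 1 + t) * ee (γ' a * ((n + 1 : ℕ) : ℝ))‖ =
            ‖G a (n + 1 + t + 1) - G a (n + 1 + t)‖ := by
          intro t
          rw [← sub_mul, norm_mul, norm_ee, mul_one, Nat.add_assoc (n + 1) t 1]
        simp only [h3]
        refine h2.trans ?_
        have h4 : V * M a ≤ V * (V * √Y) := mul_le_mul_of_nonneg_left hMa hV0
        refine h4.trans (le_of_eq ?_)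
        ring
  · right
    rw [ms_shift]
    have h2 : ∑ j ∈ range P, ‖u j q * ee (φ j q * ((n + 1 : ℕ) : ℝ))‖ =
        ∑ j ∈ range P, ‖u j q‖ := by
      apply sum_congr rfl
      intro j _
      rw [norm_mul, norm_ee, mul_one]
    rw [h2]
    refine h1.trans ?_
    apply mul_le_mul_of_nonneg_right hV2
    unfold ar
    have : 0 ≤ ∑ x ∈ (Ioc n (n + 2 ^ m)).filter (fun x => 1 ∣ x), ‖(fam P φ u q).f x‖ ^ 2 :=
      sum_nonneg fun _ _ => by positivity
    positivity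

end Pool.Agent.H70.G0
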