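import Pool.Agent.H70.G0.FCB
import Pool.Agent.H40.ES.BK

/-!
# Theorem (H0), MP_c59857_nt: from the windows of a block to the cyclic group
-/

set_option autoImplicit false

open Finset Pool.Agent.H6.N4D Pool.Agent.H93 Pool.Agent.H93.GS Pool.Agent.H6.GS2
open Pool.Agent.H6.G9 Pool.Agent.H6.G0 Pool.Agent.H56.HB
open Pool.Agent.H93.HB (fw FC lt be)
open Pool.Agent.H93.ES (wm DR avZ)

namespace Pool.Agent.H70.G0

/-- the functional depends only on the letters of the window and on the residues -/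
lemma fw_congr {f g : ℕ → ℝ} {w r r' : ℕ} (P : ℕ) (φ : ℕ → ℕ → ℝ) (u : ℕ → ℕ → ℂ)
    (hfg : ∀ t < 2 ^ w, f t = g t) (hr : ∀ q ∈ EB.QQ w, ∀ t, q ∣ r + t ↔ q ∣ r' + t) :
    fw f w r P φ u = fw g w r' P φ u := by
  unfold fw
  refine sum_congr rfl fun q hq => ?_
  have h1 : cx f w q r (fe P φ u q) = cx g w q r' (fe P φ u q) := by
    unfold cx wm
    congr 1
    refine sum_congr rfl fun t ht => ?_
    rw [hfg t (mem_range.1 ht)]
    have h2 : DR q (r + t) = DR q (r' + t) := by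
      unfold DR
      by_cases h : q ∣ r + t
      · rw [if_pos h, if_pos ((hr q hq t).1 h)]
      · rw [if_neg h, if_neg fun h' => h ((hr q hq t).2 h')]
    simp only [h2]
  rw [h1]

/-- the families which vanish -/
lemma fw_zero (f : ℕ → ℝ) (w r P : ℕ) (φ : ℕ → ℕ → ℝ) : fw f w r P φ (fun _ _ => 0) = 0 := by
  unfold fw
  refine sum_eq_zero fun q _ => ?_
  have h1 : fe P φ (fun _ _ => 0) q = fun _ => 0 := by
    funext t
    unfold fe
    simp
  rw [h1]
  unfold cx ms wm
  simp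

lemma fc_zero {w P : ℕ} {V : ℝ} (hV : 1 ≤ V) {φ : ℕ → ℕ → ℝ}
    (hφ : ∀ j < P, Pool.Agent.H3.BT.NCt w (φ j)) : FC w P V φ (fun _ _ => 0) := by
  have hms : ∀ F : ℕ → ℂ, 0 ≤ ms w F := by
    intro F
    unfold ms
    positivity
  refine ⟨⟨fun j q => ?_, hφ, fun _ => 0, fun q _ => Or.inr ?_⟩, ?_, fun q _ => Or.inl ?_⟩
  · rw [norm_zero]
    positivity
  · simp only [norm_zero, sum_const_zero]
    exact mul_nonneg (by linarith) (hms _)
  · intro q _ i _ j _ h
    exact absurd rfl h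
  · intro j _
    rfl

/-- from the cyclic group to the block -/
theorem blk_low {N : ℕ} [NeZero N] (L : ℕ) (F : ℕ → ℝ) (G : ZMod N → ℝ) (b : ℝ) (hb : 0 ≤ b)
    (hF : ∀ k < N, 0 ≤ F k) (hG : ∀ n, G n ≤ b)
    (hFG : ∀ k, k + 1 + L ≤ N → G ((k + 1 : ℕ) : ZMod N) ≤ F k) (hL : 1 ≤ L) :
    avZ G ≤ (∑ k ∈ range N, F k) / (N : ℝ) + b * L / N := by
  have hN : (0 : ℝ) < N := by
    have := NeZero.pos N
    exact_mod_cast this
  unfold avZ
  rw [← add_div]
  apply div_le_div_of_nonneg_right _ hN.le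
  have h1 : ∑ n, G n = ∑ k ∈ range N, G ((k + 1 : ℕ) : ZMod N) := by
    have h2 : ∑ n, G n = ∑ n : ZMod N, G (n + 1) :=
      (Fintype.sum_equiv (Equiv.addRight (1 : ZMod N)) _ _ fun x => rfl).symm
    rw [h2]
    refine (sum_bij (fun (k : ℕ) _ => (k : ZMod N)) ?_ ?_ ?_ ?_).symm
    · intro k _
      exact mem_univ _
    · intro a ha c hc h
      have h3 : ((a : ℕ) : ZMod N).val = ((c : ℕ) : ZMod N).val := congrArg _ h
      rwa [ZMod.val_natCast_of_lt (mem_range.1 ha), ZMod.val_natCast_of_lt (mem_range.1 hc)] at h3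
    · intro n _
      exact ⟨n.val, mem_range.2 (ZMod.val_lt n), ZMod.natCast_zmod_val n⟩
    · intro k _
      push_cast
      rfl
  rw [h1, ← sum_filter_add_sum_filter_not (range N) (fun k => k + 1 + L ≤ N)]
  apply add_le_add
  · calc ∑ k ∈ (range N).filter (fun k => k + 1 + L ≤ N), G ((k + 1 : ℕ) : ZMod N)
        ≤ ∑ k ∈ (range N).filter (fun k => k + 1 + L ≤ N), F k :=
          sum_le_sum fun k hk => hFG k (mem_filter.1 hk).2
      _ ≤ _ := sum_le_sum_of_subset_of_nonneg (filter_subset _ _)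
          fun k hk _ => hF k (mem_range.1 hk)
  · calc ∑ k ∈ (range N).filter (fun k => ¬ k + 1 + L ≤ N), G ((k + 1 : ℕ) : ZMod N)
        ≤ ∑ k ∈ (range N).filter (fun k => ¬ k + 1 + L ≤ N), b :=
          sum_le_sum fun k _ => hG _
      _ = ((range N).filter (fun k => ¬ k + 1 + L ≤ N)).card * b := by
          rw [sum_const, nsmul_eq_mul]
      _ ≤ L * b := by
          gcongr
          have h1 : (range N).filter (fun k => ¬ k + 1 + L ≤ N) ⊆ Ico (N - L) N := by
            intro k hk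
            obtain ⟨h2, h3⟩ := mem_filter.1 hk
            rw [mem_range] at h2
            rw [mem_Ico]
            omega
          refine (card_le_card h1).trans ?_
          rw [Nat.card_Ico]
          omega
      _ = _ := mul_comm _ _

/-- the letters of the block number `i` -/
noncomputable def bl (lam : ℕ → ℝ) (N i : ℕ) (x : ZMod N) : ℝ := lam (i * N + x.val)

lemma bl_lt {lam : ℕ → ℝ} {N i k L : ℕ} [NeZero N] (hk : k + 1 + L ≤ N) (hL : 1 ≤ L) :
    ((k + 1 : ℕ) : ZMod N).val = k + 1 ∧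
    ∀ t < L, lt (bl lam N i) ((k + 1 : ℕ) : ZMod N) t = lam (i * N + k + 1 + t) := by
  refine ⟨ZMod.val_natCast_of_lt (by omega), fun t ht => ?_⟩
  unfold lt bl
  have h1 : (((k + 1 : ℕ) : ZMod N) + (t : ZMod N)).val = k + 1 + t := by
    rw [← Nat.cast_add, ZMod.val_natCast_of_lt (by omega)]
  rw [h1]
  congr 1
  omega

/-- one block: the mean square distance from the sums of exponentials -/
theorem be_blk {lam : ℕ → ℝ} (hl : ∀ n, |lam n| ≤ 1) {N : ℕ} [NeZero N] {i : ℕ} (R s : ℕ)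
    {b : ℕ → ℕ → ℂ} (hb : ∀ n r, ‖b n r‖ ≤ 1) (β : ℕ → ℕ → ℝ) :
    ∃ (b' : ZMod N → ℕ → ℂ) (β' : ZMod N → ℕ → ℝ), (∀ n r, ‖b' n r‖ ≤ 1) ∧
      be R s (bl lam N i) b' β' ≤ (∑ k ∈ range N, (∑ m ∈ Ioc (i * N + k) (i * N + k + 2 ^ s),
        ‖(lam m : ℂ) - ∑ r ∈ range R, b (i * N + k) r * ee (β (i * N + k) r * m)‖ ^ 2) /
          ((2 ^ s : ℕ) : ℝ)) / N + (1 + R) ^ 2 * ((2 ^ s : ℕ) : ℝ) / N := by
  have hs : (0 : ℝ) < 2 ^ s := by positivity
  refine ⟨fun n r => b (i * N + n.val - 1) r *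
      ee (β (i * N + n.val - 1) r * ((i * N + n.val : ℕ) : ℝ)),
    fun n r => β (i * N + n.val - 1) r, ?_, ?_⟩
  · intro n r
    rw [norm_mul, norm_ee, mul_one]
    exact hb _ _
  unfold be
  apply blk_low (2 ^ s) (fun k => (∑ m ∈ Ioc (i * N + k) (i * N + k + 2 ^ s),
        ‖(lam m : ℂ) - ∑ r ∈ range R, b (i * N + k) r * ee (β (i * N + k) r * m)‖ ^ 2) /
          ((2 ^ s : ℕ) : ℝ)) _ _ (by positivity)
  · intro k _
    positivity
  · intro n
    rw [div_le_iff₀ hs]
    have h1 : ∀ t ∈ range (2 ^ s), ‖((lt (bl lam N i) n t : ℝ) : ℂ) - ∑ r ∈ range R,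
        b (i * N + n.val - 1) r * ee (β (i * N + n.val - 1) r * ((i * N + n.val : ℕ) : ℝ)) *
          ee (β (i * N + n.val - 1) r * t)‖ ^ 2 ≤ (1 + (R : ℝ)) ^ 2 := by
      intro t _
      have h2 : ‖((lt (bl lam N i) n t : ℝ) : ℂ) - ∑ r ∈ range R,
        b (i * N + n.val - 1) r * ee (β (i * N + n.val - 1) r * ((i * N + n.val : ℕ) : ℝ)) *
          ee (β (i * N + n.val - 1) r * t)‖ ≤ 1 + (R : ℝ) := by
        refine (norm_sub_le _ _).trans (add_le_add ?_ ?_)
        · rw [Complex.norm_real, Real.norm_eq_abs]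
          exact hl _
        · refine (norm_sum_le _ _).trans ?_
          calc ∑ r ∈ range R, ‖b (i * N + n.val - 1) r *
                ee (β (i * N + n.val - 1) r * ((i * N + n.val : ℕ) : ℝ)) *
                ee (β (i * N + n.val - 1) r * t)‖ ≤ ∑ _r ∈ range R, (1 : ℝ) := by
                refine sum_le_sum fun r _ => ?_
                rw [norm_mul, norm_mul, norm_ee, norm_ee, mul_one, mul_one]
                exact hb _ _
            _ = R := by rw [sum_const, card_range, nsmul_eq_mul, mul_one]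
      gcongr
    refine (sum_le_sum h1).trans (le_of_eq ?_)
    rw [sum_const, card_range, nsmul_eq_mul]
    push_cast
    ring
  · intro k hk
    obtain ⟨h1, h2⟩ := bl_lt (lam := lam) (i := i) hk Nat.one_le_two_pow
    apply le_of_eq
    simp only [h1]
    rw [sum_Ioc_shift]
    have h3 : i * N + (k + 1) - 1 = i * N + k := by omega
    simp only [h3]
    congr 1
    · refine sum_congr rfl fun t ht => ?_
      rw [h2 t (mem_range.1 ht)]
      congr 3
      refine sum_congr rfl fun r _ => ?_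
      rw [mul_assoc, ← ee_add]
      congr 2
      push_cast
      ring
    · push_cast
      rfl
  · exact Nat.one_le_two_pow

end Pool.Agent.H70.G0
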