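import Pool.Agent.H70.G0.BSB
import Pool.Agent.H53.ES.BLL
import Pool.Agent.H1.ES.BLU
import Pool.Agent.H40.ES.EBS

/-!
# Theorem (H0), MP_c59857_nt: the inequality of Bessel for restricted families (row BSR)
-/

set_option autoImplicit false

open Finset Pool.Agent.H6.N4D Pool.Agent.H93 Pool.Agent.H93.GS Pool.Agent.H6.GS2
open Pool.Agent.H6.G9 Pool.Agent.H6.G0 Pool.Agent.H56.HB
open Pool.Agent.H93.HB (fw FC lt be T_BLO)
open Pool.Agent.H93.ES (wm DR avZ)

namespace Pool.Agent.H70.G0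

lemma ev_pow (A ε : ℝ) (hε : 0 < ε) : ∃ T : ℕ, ∀ m, T ≤ m → A * (1 / 2) ^ m ≤ ε := by
  have h1 : Filter.Tendsto (fun m : ℕ => A * (1 / 2 : ℝ) ^ m) Filter.atTop (nhds (A * 0)) :=
    (tendsto_pow_atTop_nhds_zero_of_lt_one (by norm_num) (by norm_num)).const_mul A
  rw [mul_zero] at h1
  obtain ⟨T, hT⟩ := Filter.eventually_atTop.1 (h1.eventually (ge_mem_nhds hε))
  exact ⟨T, fun m hm => hT m hm⟩

lemma sum_pow_half (a : ℕ → ℕ) (T : ℕ) (K : ℕ) (h : ∀ j < K, T + j ≤ a j) :
    ∑ j ∈ range K, (1 / 2 : ℝ) ^ a j ≤ 2 * (1 / 2) ^ T := by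
  calc ∑ j ∈ range K, (1 / 2 : ℝ) ^ a j ≤ ∑ j ∈ range K, (1 / 2 : ℝ) ^ T * (1 / 2) ^ j := by
        refine sum_le_sum fun j hj => ?_
        rw [← pow_add]
        exact pow_le_pow_of_le_one (by norm_num) (by norm_num) (h j (mem_range.1 hj))
    _ = (1 / 2 : ℝ) ^ T * ∑ j ∈ range K, (1 / 2 : ℝ) ^ j := by rw [mul_sum]
    _ ≤ (1 / 2 : ℝ) ^ T * 2 := by
        gcongr
        rw [geom_sum_eq (by norm_num)]
        have : (0 : ℝ) < (1 / 2) ^ K := by positivity
        rw [div_le_iff_of_neg (by norm_num)]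
        linarith
    _ = _ := mul_comm _ _

/-- BSR. -/
theorem pf_BSR (hU : T_UBR) (hL : T_BLO) : T_BSR := by
  obtain ⟨B, C₀, hB, hC₀, hL⟩ := hL
  refine ⟨B + 400, 2 * C₀, by omega, by positivity, ?_⟩
  intro R P ε hε
  obtain ⟨m₁, CU, hCU, hU⟩ := hU P
  obtain ⟨V, Cf, mf, hV, hCf, hf⟩ := fcb P
  obtain ⟨s₁, hL⟩ := hL R P V (ε / 16) hV (by positivity)
  obtain ⟨T, hT⟩ := ev_pow (2 * Cf) (ε / 16) (by positivity)
  obtain ⟨W, hW⟩ := ev_pow (CU + C₀ * (1 + R) ^ 2) (ε / 16) (by positivity)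
  refine ⟨s₁ + m₁ + mf + 2000 * (T + 1) + W + 1, ?_⟩
  intro s hs
  set Z : ℝ := 17 + 408 * CU / ε with hZ
  have hZ1 : 17 ≤ Z := by
    have : 0 ≤ 408 * CU / ε := by positivity
    linarith
  refine ⟨⌈Real.exp (Z ^ 2)⌉₊ + 3, ?_⟩
  intro X K lam e m hX hlam he hBase hs0 hm hmX
  have hl : ∀ n, |lam n| ≤ 1 := by
    intro n
    rcases hlam.pm n with h | h <;> rw [h] <;> norm_num
  have hX3 : 3 ≤ X := by omega
  have hXr : (0 : ℝ) < X := by
    have : 0 < X := by omega
    exact_mod_cast this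
  set L : ℝ := Real.log X with hLd
  have hLT : Z ^ 2 ≤ L := by
    rw [hLd, Real.le_log_iff_exp_le hXr]
    refine (Nat.le_ceil _).trans ?_
    exact_mod_cast (show ⌈Real.exp (Z ^ 2)⌉₊ ≤ X by omega)
  have hL1 : 1 ≤ L := by nlinarith
  have hsq : Z ≤ Real.sqrt L := Real.le_sqrt_of_sq_le hLT
  have hsqL : Real.sqrt L * Real.sqrt L = L := Real.mul_self_sqrt (by linarith)
  have hsq0 : 0 < Real.sqrt L := by linarith
  rcases Nat.eq_zero_or_pos K with hK | hK
  · subst hK
    simp only [range_zero, sum_empty]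
    positivity
  -- sizes of the levels
  have hm0 : B * s ≤ m 0 ∧ 400 * s ≤ m 0 := by
    have h1 : B * s + 400 * s ≤ m 0 := by linarith [hs0]
    omega
  have hmj : ∀ j, j + 1 < K → B * m j ≤ m (j + 1) ∧ 400 * m j ≤ m (j + 1) := by
    intro j hj
    have h1 := hm j hj
    have h2 : B * m j + 400 * m j ≤ m (j + 1) := by linarith [h1]
    omega
  have hge : ∀ j < K, s + 2000 * j ≤ m j := by
    intro j
    induction j with
    | zero => intro _; omega
    | succ j ih =>
      intro hj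
      have h2 := ih (by omega)
      have h3 := (hmj j hj).2
      omega
  obtain ⟨M, hMd⟩ : ∃ M : ℕ, M = (range K).sup m := ⟨_, rfl⟩
  have hmM : ∀ j < K, m j ≤ M := by
    intro j hj
    rw [hMd]
    exact Finset.le_sup (f := m) (mem_range.2 hj)
  have hML : (4 : ℝ) ^ M ≤ L := by
    obtain ⟨j, hj, hj2⟩ := Finset.exists_mem_eq_sup (range K) ⟨0, mem_range.2 hK⟩ m
    rw [hMd, hj2]
    exact hmX j (mem_range.1 hj)
  have hsM : s ≤ M := by
    have h1 := hge 0 hK
    have h2 := hmM 0 hK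
    omega
  have hKM : K ≤ M + 1 := by
    have h1 := hge (K - 1) (by omega)
    have h2 := hmM (K - 1) (by omega)
    omega
  -- the length of the blocks
  set N : ℕ := primorial (2 ^ (M / 200)) * 2 ^ (3 * M) with hN
  have hNpos : 0 < N := by
    rw [hN]
    have := primorial_pos (2 ^ (M / 200))
    positivity
  have : NeZero N := ⟨hNpos.ne'⟩
  have hNr : (0 : ℝ) < N := by exact_mod_cast hNpos
  have h2N : ∀ j ≤ M, 2 ^ j ∣ N := by
    intro j hj
    rw [hN]
    exact dvd_mul_of_dvd_right (pow_dvd_pow 2 (by omega)) _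
  have hdvd : ∀ j < K, primorial (2 ^ (m j / 200)) ∣ N ∧ 2 ^ m j ∣ N := by
    intro j hj
    refine ⟨?_, h2N _ (hmM j hj)⟩
    refine dvd_trans (primorial_dvd_primorial ?_) (Dvd.intro _ rfl)
    exact Nat.pow_le_pow_right (by norm_num) (Nat.div_le_div_right (hmM j hj))
  have hlogN : Real.log N ≤ 2 * 2 ^ (M / 200) + 3 * M := by
    have h1 : (N : ℝ) = (primorial (2 ^ (M / 200)) : ℝ) * 2 ^ (3 * M) := by
      rw [hN]
      push_cast
      ring
    have hp : (0 : ℝ) < (primorial (2 ^ (M / 200)) : ℝ) := by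
      exact_mod_cast primorial_pos _
    rw [h1, Real.log_mul hp.ne' (by positivity), Real.log_pow]
    have h2 : Real.log (primorial (2 ^ (M / 200)) : ℝ) ≤ 2 * 2 ^ (M / 200) := by
      have h3 : (primorial (2 ^ (M / 200)) : ℝ) ≤ 4 ^ (2 ^ (M / 200)) := by
        exact_mod_cast primorial_le_four_pow _
      refine (Real.log_le_log hp h3).trans ?_
      rw [Real.log_pow]
      have h4 : Real.log 4 ≤ 2 := by
        have h5 : Real.log 4 = 2 * Real.log 2 := by
          rw [show (4 : ℝ) = 2 ^ 2 by norm_num, Real.log_pow]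
          norm_num
        have := Real.log_two_lt_d9
        rw [h5]
        linarith
      push_cast
      have h6 : (0 : ℝ) < 2 ^ (M / 200) := by positivity
      nlinarith
    have h7 : ((3 * M : ℕ) : ℝ) * Real.log 2 ≤ 3 * M := by
      have := Real.log_two_lt_d9
      have h8 : (0 : ℝ) ≤ M := Nat.cast_nonneg M
      push_cast
      nlinarith
    linarith
  have hsize := Pool.Agent.H40.ES.size_facts (M := M) le_rfl hML
  have hM0 : (0 : ℝ) ≤ M := Nat.cast_nonneg M
  have hlogN0 : 0 ≤ Real.log N := Real.log_natCast_nonneg N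
  have hKlog : ((M : ℝ) + 1) * (1 + Real.log N) ≤ 17 * Real.sqrt L := by
    rw [add_zero, add_zero] at hsize
    refine le_trans ?_ hsize
    exact mul_le_mul_of_nonneg_left (by linarith) (by positivity)
  have hN3 : (2 : ℝ) ^ (3 * M) ≤ N := by
    have h5 : 1 * 2 ^ (3 * M) ≤ N := by
      rw [hN]
      apply Nat.mul_le_mul_right
      exact primorial_pos _
    rw [one_mul] at h5
    exact_mod_cast h5
  -- the errors of the ends of the blocks
  have hend : ∀ x : ℝ, x ≤ 2 ^ M * 2 ^ M → x / (N : ℝ) ≤ (1 / 2) ^ M := by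
    intro x hx
    rw [div_le_iff₀ hNr]
    calc x ≤ 2 ^ M * 2 ^ M := hx
      _ = (1 / 2) ^ M * 2 ^ (3 * M) := by
          rw [show 3 * M = M + (M + M) by ring, pow_add, pow_add, one_div, inv_pow]
          have h2 : (2 : ℝ) ^ M ≠ 0 := by positivity
          field_simp
      _ ≤ (1 / 2) ^ M * N := by gcongr
  -- the base
  obtain ⟨b, β, hb, hbase⟩ := hBase
  set FB : ℕ → ℝ := fun n => (∑ m ∈ Ioc n (n + 2 ^ s),
    ‖(lam m : ℂ) - ∑ r ∈ range R, b n r * ee (β n r * m)‖ ^ 2) / ((2 ^ s : ℕ) : ℝ) with hFB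
  have hFB0 : ∀ n, 0 ≤ FB n := by
    intro n
    rw [hFB]
    positivity
  have hbase2 : EB.lg X FB ≤ e * L := hbase
  have hbase3 := (Pool.Agent.H53.ES.pf_BLL X N FB (by omega) hFB0).trans
    (mul_le_mul_of_nonneg_left hbase2 (by norm_num : (0 : ℝ) ≤ 2))
  -- the best families
  set ε₁ : ℝ := ε / (16 * (K + 1)) with hε₁
  have hε₁0 : 0 < ε₁ := by positivity
  have hch : ∀ j : ℕ, ∀ n : ℕ, ∃ (φ : ℕ → ℕ → ℝ) (u : ℕ → ℕ → ℂ), j < K →
      AdR P (m j) n φ u ∧ UBr lam P (m j) n ≤ fv lam (m j) n P φ u + ε₁ := by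
    intro j n
    by_cases hj : j < K
    · obtain ⟨φ, u, h1, h2⟩ := (hU lam (m j) n (by have := hge j hj; omega) hl).2.2.2.1 ε₁ hε₁0
      exact ⟨φ, u, fun _ => ⟨h1, h2⟩⟩
    · exact ⟨fun _ _ => 0, fun _ _ => 0, fun h => absurd h hj⟩
  choose Φ U hΦ using hch
  -- one block
  have hblock : ∀ i ∈ Icc 1 (X / N - 1), 1 / (i : ℝ) *
      (∑ j ∈ range K, (∑ k ∈ range N, UBr lam P (m j) (i * N + k)) / (N : ℝ)) ≤
      C₀ * (1 / (i : ℝ) * ((∑ k ∈ range N, FB (i * N + k)) / (N : ℝ))) +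
        ε / 4 * (1 / (i : ℝ)) := by
    intro i hi
    have hi1 := (mem_Icc.1 hi).1
    have hiN : 1 ≤ i * N := Nat.mul_pos hi1 hNpos
    have hi0 : (0 : ℝ) ≤ 1 / (i : ℝ) := by positivity
    obtain ⟨b', β', hb', hbe⟩ := be_blk hl (N := N) (i := i) R s hb β
    -- the families on the cyclic group
    obtain ⟨φ', hφ'⟩ : ∃ φ' : ℕ → ZMod N → ℕ → ℕ → ℝ, ∀ j n,
      φ' j n = Φ j (i * N + n.val - 1) := ⟨_, fun _ _ => rfl⟩
    classical
    obtain ⟨u', hu'⟩ : ∃ u' : ℕ → ZMod N → ℕ → ℕ → ℂ, ∀ j n,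
      u' j n = if 1 ≤ n.val ∧ n.val + 2 ^ m j ≤ N then
        rel P (m j) (i * N + n.val - 1) (Φ j (i * N + n.val - 1)) (U j (i * N + n.val - 1))
        else fun _ _ => 0 := ⟨_, fun _ _ => rfl⟩
    have hFC : ∀ j < K, ∀ n, FC (m j) P V (φ' j n) (u' j n) := by
      intro j hj n
      have h1 := hf (m j) (i * N + n.val - 1) (Φ j (i * N + n.val - 1))
        (U j (i * N + n.val - 1)) (by have := hge j hj; omega) (hΦ j _ hj).1
      rw [hφ', hu']
      split_ifs with h
      · exact h1.1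
      · exact fc_zero hV (hΦ j _ hj).1.ad.nc
    have h1 := hL s (by omega) N K m (bl lam N i) φ' u' b' β' (fun x => hl _) hb'
      (h2N s hsM) hm0.1 (fun j hj => (hmj j hj).1) hdvd hFC
    -- every level
    have h2 : ∀ j ∈ range K, (∑ k ∈ range N, UBr lam P (m j) (i * N + k)) / (N : ℝ) ≤
        avZ (fun n => fw (lt (bl lam N i) n) (m j) n.val P (φ' j n) (u' j n)) +
          (ε₁ + Cf * (1 / 2) ^ (m j / 2000)) + CU * ((2 ^ m j : ℕ) : ℝ) / N := by
      intro j hj
      have hj' := mem_range.1 hj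
      have hUj := fun n => hU lam (m j) n (by have := hge j hj'; omega) hl
      have key : ∀ k, k + 1 + 2 ^ m j ≤ N → UBr lam P (m j) (i * N + k) ≤
          fw (lt (bl lam N i) ((k + 1 : ℕ) : ZMod N)) (m j) ((k + 1 : ℕ) : ZMod N).val P
            (φ' j ((k + 1 : ℕ) : ZMod N)) (u' j ((k + 1 : ℕ) : ZMod N)) +
            (ε₁ + Cf * (1 / 2) ^ (m j / 2000)) := by
        intro k hk
        obtain ⟨a1, a2⟩ := bl_lt (lam := lam) (i := i) hk Nat.one_le_two_pow
        rw [hφ', hu', a1]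
        have a3 : i * N + (k + 1) - 1 = i * N + k := by omega
        rw [a3, if_pos ⟨by omega, hk⟩]
        have a4 := (hf (m j) (i * N + k) (Φ j (i * N + k)) (U j (i * N + k))
          (by have := hge j hj'; omega) (hΦ j _ hj').1).2 lam hl
        have a5 : fw (lt (bl lam N i) ((k + 1 : ℕ) : ZMod N)) (m j) (k + 1) P
            (Φ j (i * N + k)) (rel P (m j) (i * N + k) (Φ j (i * N + k)) (U j (i * N + k))) =
            fw (fun t => lam (i * N + k + 1 + t)) (m j) (i * N + k + 1) P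
            (Φ j (i * N + k)) (rel P (m j) (i * N + k) (Φ j (i * N + k)) (U j (i * N + k))) := by
          apply fw_congr
          · intro t ht
            exact a2 t ht
          · intro q hq t
            obtain ⟨-, -, hqN⟩ := Pool.Agent.H40.ES.QQ_facts hq
            have h3 : q ∣ i * N := dvd_mul_of_dvd_right (hqN N (hdvd j hj').1) _
            have h4 : i * N + k + 1 + t = i * N + (k + 1 + t) := by ring
            rw [h4]
            exact (Nat.dvd_add_right h3).symm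
        have a6 := (hΦ j (i * N + k) hj').2
        rw [a5]
        linarith
      have hG : ∀ n : ZMod N, 0 ≤ fw (lt (bl lam N i) n) (m j) n.val P (φ' j n) (u' j n) +
          (ε₁ + Cf * (1 / 2) ^ (m j / 2000)) := by
        intro n
        by_cases h : 1 ≤ n.val ∧ n.val + 2 ^ m j ≤ N
        · have h3 := key (n.val - 1) (by omega)
          have h4 : n.val - 1 + 1 = n.val := by omega
          rw [h4, ZMod.natCast_zmod_val] at h3
          exact ((hUj (i * N + (n.val - 1))).1).trans h3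
        · rw [hu', if_neg h, fw_zero]
          positivity
      have h3 := Pool.Agent.H40.ES.blk_sum (2 ^ m j) (fun k => UBr lam P (m j) (i * N + k))
        (fun n : ZMod N => fw (lt (bl lam N i) n) (m j) n.val P (φ' j n) (u' j n) +
          (ε₁ + Cf * (1 / 2) ^ (m j / 2000))) CU hCU.le (fun k _ => (hUj _).2.1) hG key
          Nat.one_le_two_pow
      refine h3.trans (le_of_eq ?_)
      congr 1
      unfold Pool.Agent.H93.ES.avZ
      rw [sum_add_distrib, sum_const, card_univ, ZMod.card, nsmul_eq_mul, add_div,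
        mul_div_cancel_left₀ _ hNr.ne']
    have h3 := sum_le_sum h2
    rw [sum_add_distrib, sum_add_distrib, sum_add_distrib, sum_const, card_range, nsmul_eq_mul,
      ← mul_sum] at h3
    have e1 : (K : ℝ) * ε₁ ≤ ε / 16 := by
      rw [hε₁]
      rw [mul_div_assoc', div_le_div_iff₀ (by positivity) (by norm_num)]
      nlinarith
    have e2 : Cf * ∑ j ∈ range K, (1 / 2 : ℝ) ^ (m j / 2000) ≤ ε / 16 := by
      have h4 := sum_pow_half (fun j => m j / 2000) T K (fun j hj => by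
        have := hge j hj
        omega)
      have h5 := hT T le_rfl
      calc Cf * ∑ j ∈ range K, (1 / 2 : ℝ) ^ (m j / 2000) ≤ Cf * (2 * (1 / 2) ^ T) := by gcongr
        _ = 2 * Cf * (1 / 2) ^ T := by ring
        _ ≤ _ := h5
    have e3 : ∑ j ∈ range K, CU * ((2 ^ m j : ℕ) : ℝ) / N ≤ CU * (1 / 2) ^ M := by
      rw [← sum_div, ← mul_sum, mul_div_assoc]
      refine mul_le_mul_of_nonneg_left (hend _ ?_) hCU.le
      calc ∑ j ∈ range K, ((2 ^ m j : ℕ) : ℝ) ≤ ∑ _j ∈ range K, (2 : ℝ) ^ M := by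
            refine sum_le_sum fun j hj => ?_
            push_cast
            exact pow_le_pow_right₀ (by norm_num) (hmM j (mem_range.1 hj))
        _ = K * 2 ^ M := by rw [sum_const, nsmul_eq_mul, card_range]
        _ ≤ 2 ^ M * 2 ^ M := by
            gcongr
            have h4 := Nat.lt_two_pow_self (n := M)
            have h5 : K ≤ 2 ^ M := by omega
            exact_mod_cast h5
    have e4 : (1 + (R : ℝ)) ^ 2 * ((2 ^ s : ℕ) : ℝ) / N ≤ (1 + (R : ℝ)) ^ 2 * (1 / 2) ^ M := by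
      rw [mul_div_assoc]
      refine mul_le_mul_of_nonneg_left (hend _ ?_) (by positivity)
      push_cast
      have h5 : (2 : ℝ) ^ s ≤ 2 ^ M := pow_le_pow_right₀ (by norm_num) hsM
      have h6 : (1 : ℝ) ≤ 2 ^ M := one_le_pow₀ (by norm_num)
      nlinarith
    have e5 := hW M (by omega)
    have h4 : ∑ j ∈ range K, (∑ k ∈ range N, UBr lam P (m j) (i * N + k)) / (N : ℝ) ≤
        C₀ * ((∑ k ∈ range N, FB (i * N + k)) / (N : ℝ)) + ε / 4 := by
      have h5 : C₀ * be R s (bl lam N i) b' β' ≤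
          C₀ * ((∑ k ∈ range N, FB (i * N + k)) / (N : ℝ) + (1 + (R : ℝ)) ^ 2 * (1 / 2) ^ M) :=
        mul_le_mul_of_nonneg_left (hbe.trans (add_le_add le_rfl e4)) hC₀.le
      have h6 : C₀ * ((∑ k ∈ range N, FB (i * N + k)) / (N : ℝ) +
          (1 + (R : ℝ)) ^ 2 * (1 / 2) ^ M) = C₀ * ((∑ k ∈ range N, FB (i * N + k)) / (N : ℝ)) +
          C₀ * (1 + (R : ℝ)) ^ 2 * (1 / 2) ^ M := by ring
      have h7 : (CU + C₀ * (1 + (R : ℝ)) ^ 2) * (1 / 2) ^ M =
          CU * (1 / 2) ^ M + C₀ * (1 + (R : ℝ)) ^ 2 * (1 / 2) ^ M := by ring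
      linarith
    calc 1 / (i : ℝ) * (∑ j ∈ range K, (∑ k ∈ range N, UBr lam P (m j) (i * N + k)) / (N : ℝ))
        ≤ 1 / (i : ℝ) * (C₀ * ((∑ k ∈ range N, FB (i * N + k)) / (N : ℝ)) + ε / 4) :=
          mul_le_mul_of_nonneg_left h4 hi0
      _ = _ := by ring
  -- the sum of the blocks
  calc ∑ j ∈ range K, EB.lg X (fun n => UBr lam P (m j) n)
      ≤ ∑ j ∈ range K, (3 * CU * (1 + Real.log N) +
        ∑ i ∈ Icc 1 (X / N - 1), 1 / (i : ℝ) *
          ((∑ k ∈ range N, UBr lam P (m j) (i * N + k)) / (N : ℝ))) := by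
        refine sum_le_sum fun j hj => ?_
        have hUj := fun n => hU lam (m j) n (by have := hge j (mem_range.1 hj); omega) hl
        exact Pool.Agent.H1.ES.pf_BLU X N (fun n => UBr lam P (m j) n) CU (by omega) hX3 hCU.le
          (fun n => ⟨(hUj n).1, (hUj n).2.1⟩)
    _ = K * (3 * CU * (1 + Real.log N)) + ∑ i ∈ Icc 1 (X / N - 1), 1 / (i : ℝ) *
          (∑ j ∈ range K, (∑ k ∈ range N, UBr lam P (m j) (i * N + k)) / (N : ℝ)) := by
        rw [sum_add_distrib, sum_const, card_range, nsmul_eq_mul, sum_comm]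
        congr 1
        refine sum_congr rfl fun i _ => ?_
        rw [mul_sum]
    _ ≤ ε / 8 * L + ∑ i ∈ Icc 1 (X / N - 1),
          (C₀ * (1 / (i : ℝ) * ((∑ k ∈ range N, FB (i * N + k)) / (N : ℝ))) +
          ε / 4 * (1 / (i : ℝ))) := by
        apply add_le_add _ (sum_le_sum hblock)
        have h3 : (K : ℝ) ≤ (M : ℝ) + 1 := by exact_mod_cast hKM
        calc (K : ℝ) * (3 * CU * (1 + Real.log N))
            ≤ ((M : ℝ) + 1) * (3 * CU * (1 + Real.log N)) := by gcongr
          _ = 3 * CU * (((M : ℝ) + 1) * (1 + Real.log N)) := by ring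
          _ ≤ 3 * CU * (17 * Real.sqrt L) := by gcongr
          _ = ε / 8 * (408 * CU / ε) * Real.sqrt L := by
              field_simp
              ring
          _ ≤ ε / 8 * Real.sqrt L * Real.sqrt L := by
              gcongr
              linarith
          _ = ε / 8 * L := by rw [mul_assoc, hsqL]
    _ ≤ ε / 8 * L + (C₀ * (2 * (e * L)) + ε / 4 * (1 + L)) := by
        rw [sum_add_distrib, ← mul_sum, ← mul_sum]
        have h3 := Pool.Agent.H40.ES.harm (X / N - 1) X (by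
          have := Nat.div_le_self X N
          omega) (by omega)
        rw [← hLd] at h3
        gcongr
    _ ≤ (2 * C₀ * e + ε) * L := by nlinarith

end Pool.Agent.H70.G0
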