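import Pool.Agent.H81.HB.BRN
import Pool.Agent.H91.BS.ESM

/-!
# Theorem (H0), MP_c59857_nt: sums of exponentials near separated centres

`F = sum_a e(γ_a x) G_a(x)` with amplitudes `G_a` of small variation, of size at most the mean
square of `F`.
-/

set_option autoImplicit false

open Finset Pool.Agent.H6.N4D Pool.Agent.H3.BT Pool.Agent.H81.HB

namespace Pool.Agent.H70.G0

/-- summation by parts -/
lemma abel {N n : ℕ} {H : ℕ → ℂ} {S D θ : ℝ} (hN : 1 ≤ N) (hS : 0 ≤ S) (hD : 0 ≤ D)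
    (hθ : 0 < nd θ) (hH : ∀ x ∈ Ioc n (n + N), ‖H x‖ ≤ S)
    (hd : ∀ x ∈ Ioo n (n + N), ‖H (x + 1) - H x‖ ≤ D) :
    ‖∑ x ∈ Ioc n (n + N), H x * ee (θ * x)‖ ≤ (S + N * D) * (1 / (2 * nd θ)) := by
  have e0 : Ioc n (n + N) = (range N).map (addRightEmbedding (n + 1)) := by
    rw [range_eq_Ico, map_add_right_Ico]
    ext x
    rw [mem_Ioc, mem_Ico]
    omega
  rw [e0, sum_map]
  simp only [addRightEmbedding_apply]
  have h1 := Finset.sum_range_by_parts (fun i => H (i + (n + 1)))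
    (fun i => ee (θ * ((i + (n + 1) : ℕ) : ℝ))) N
  simp only [smul_eq_mul] at h1
  rw [h1]
  have hB : ∀ m, ‖∑ i ∈ range m, ee (θ * ((i + (n + 1) : ℕ) : ℝ))‖ ≤ 1 / (2 * nd θ) := by
    intro m
    have := Pool.Agent.H91.BS.geo_bound θ hθ (n + 1) m
    refine le_trans (le_of_eq ?_) this
    congr 1
    apply sum_congr rfl
    intro i _
    rw [Nat.add_comm]
  have hB0 : 0 ≤ 1 / (2 * nd θ) := by positivity
  refine (norm_sub_le _ _).trans ?_
  rw [norm_mul]
  have h2 : ‖H (N - 1 + (n + 1))‖ * ‖∑ i ∈ range N, ee (θ * ((i + (n + 1) : ℕ) : ℝ))‖ ≤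
      S * (1 / (2 * nd θ)) :=
    mul_le_mul (hH _ (by rw [mem_Ioc]; omega)) (hB N) (norm_nonneg _) hS
  have h3 : ‖∑ i ∈ range (N - 1), (H (i + 1 + (n + 1)) - H (i + (n + 1))) *
      ∑ i ∈ range (i + 1), ee (θ * ((i + (n + 1) : ℕ) : ℝ))‖ ≤ N * D * (1 / (2 * nd θ)) := by
    refine (norm_sum_le _ _).trans ?_
    calc ∑ i ∈ range (N - 1), ‖(H (i + 1 + (n + 1)) - H (i + (n + 1))) *
          ∑ i ∈ range (i + 1), ee (θ * ((i + (n + 1) : ℕ) : ℝ))‖
        ≤ ∑ _i ∈ range (N - 1), D * (1 / (2 * nd θ)) := by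
          apply sum_le_sum
          intro i hi
          rw [mem_range] at hi
          rw [norm_mul]
          refine mul_le_mul ?_ (hB _) (norm_nonneg _) hD
          have := hd (i + (n + 1)) (by rw [mem_Ioo]; omega)
          rwa [show i + (n + 1) + 1 = i + 1 + (n + 1) by ring] at this
      _ = ((N - 1 : ℕ) : ℝ) * (D * (1 / (2 * nd θ))) := by
          rw [sum_const, card_range, nsmul_eq_mul]
      _ ≤ N * (D * (1 / (2 * nd θ))) := by
          apply mul_le_mul_of_nonneg_right _ (by positivity)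
          exact_mod_cast Nat.sub_le N 1
      _ = N * D * (1 / (2 * nd θ)) := by ring
  have h4 : (S + N * D) * (1 / (2 * nd θ)) = S * (1 / (2 * nd θ)) + N * D * (1 / (2 * nd θ)) := by
    ring
  rw [h4]
  exact add_le_add h2 h3

lemma conj_ee (x : ℝ) : (starRingEnd ℂ) (ee x) = ee (-x) := by
  unfold ee
  rw [← Complex.exp_conj, map_mul, Complex.conj_ofReal, Complex.conj_I]
  congr 1; push_cast; ring

lemma ee_int_mul (z : ℤ) (x : ℕ) : ee ((z : ℝ) * x) = 1 := by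
  have : (z : ℝ) * x = ((z * x : ℤ) : ℝ) := by push_cast; ring
  rw [this, ee_int]

/-- BVG. Separated centres. -/
theorem bvg (k r : ℕ) (ρ : ℝ) (hρ : 0 ≤ ρ) : ∃ (Λ V : ℝ) (N₀ : ℕ), 1 ≤ Λ ∧ 1 ≤ V ∧
    ∀ (N n : ℕ) (b : ℕ → ℂ) (α γ : ℕ → ℝ), N₀ ≤ N →
    (∀ i < r, ∀ j < r, i ≠ j → Λ / N ≤ nd (γ i - γ j)) →
    (∀ l < k, b l ≠ 0 → ∃ i < r, nd (α l - γ i) ≤ ρ / N) →
    ∃ (G : ℕ → ℕ → ℂ) (M : ℕ → ℝ),
      (∀ x : ℕ, fs k b α x = ∑ i ∈ range r, ee (γ i * x) * G i x) ∧ (∀ i, 0 ≤ M i) ∧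
      (∀ i, ∀ x ∈ Ioc n (n + N), ‖G i x‖ ≤ M i) ∧
      (∀ i, ∑ x ∈ Ioo n (n + N), ‖G i (x + 1) - G i x‖ ≤ V * M i) ∧
      ∑ i ∈ range r, M i ^ 2 ≤ V ^ 2 * ((∑ x ∈ Ioc n (n + N), ‖fs k b α x‖ ^ 2) / N) := by
  rcases Nat.eq_zero_or_pos k with hk0 | hk
  · subst hk0
    refine ⟨1, 1, 0, le_rfl, le_rfl, ?_⟩
    intro N n b α γ _ _ _
    refine ⟨fun _ _ => 0, fun _ => 0, fun x => by simp [fs], fun _ => le_rfl,
      fun _ _ _ => by simp, fun _ => by simp, ?_⟩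
    simp only [ne_eq, OfNat.ofNat_ne_zero, not_false_eq_true, zero_pow, sum_const_zero]
    positivity
  obtain ⟨C, hC, hbrn⟩ := brn k (2 * ρ) (by linarith)
  obtain ⟨T, hT⟩ : ∃ T : ℝ, T = 4 * k ^ 2 * 4 ^ k := ⟨_, rfl⟩
  have hk1 : (1 : ℝ) ≤ k := by exact_mod_cast hk
  have hT1 : 1 ≤ T := by
    rw [hT]
    have h1 : (1 : ℝ) ≤ 4 ^ k := one_le_pow₀ (by norm_num)
    have h2 : (1 : ℝ) ≤ (k : ℝ) ^ 2 := one_le_pow₀ hk1
    nlinarith
  have hr0 : (0 : ℝ) ≤ r := Nat.cast_nonneg r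
  refine ⟨(r + 1) * (1 + 2 * C) * T, (r + 1) * T + C, 2 * k + 2, ?_, by nlinarith, ?_⟩
  · have h1 : 1 ≤ (r + 1) * (1 + 2 * C) := by nlinarith
    nlinarith
  intro N n b α γ hN hsep hnear
  have hN2 : 2 ≤ N := by omega
  have hN0 : (0 : ℝ) < N := by exact_mod_cast (show 0 < N by omega)
  have hN1 : (0 : ℝ) < ((N - 1 : ℕ) : ℝ) := by exact_mod_cast (show 0 < N - 1 by omega)
  have hN3 : (N : ℝ) ≤ 2 * ((N - 1 : ℕ) : ℝ) := by exact_mod_cast (show N ≤ 2 * (N - 1) by omega)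
  -- the centres
  have hch : ∀ l : ℕ, ∃ i : ℕ, l < k → b l ≠ 0 → i < r ∧ nd (α l - γ i) ≤ ρ / N := by
    intro l
    by_cases h1 : l < k ∧ b l ≠ 0
    · obtain ⟨i, hi, hi2⟩ := hnear l h1.1 h1.2
      exact ⟨i, fun _ _ => ⟨hi, hi2⟩⟩
    · exact ⟨0, fun h2 h3 => absurd ⟨h2, h3⟩ h1⟩
  choose c hc using hch
  obtain ⟨δ, hδ⟩ : ∃ δ : ℕ → ℝ, δ = fun l => if l < k ∧ b l ≠ 0 then
    (α l - γ (c l)) - round (α l - γ (c l)) else 0 := ⟨_, rfl⟩
  have hδ1 : ∀ l, |δ l| ≤ ρ / N := by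
    intro l
    rw [hδ]
    simp only
    split_ifs with h1
    · exact (hc l h1.1 h1.2).2
    · rw [abs_zero]; positivity
  obtain ⟨B, hB⟩ : ∃ B : ℕ → ℕ → ℂ, B = fun i l => if c l = i then b l else 0 := ⟨_, rfl⟩
  obtain ⟨G, hG⟩ : ∃ G : ℕ → ℕ → ℂ, G = fun i x => fs k (B i) δ x := ⟨_, rfl⟩
  obtain ⟨M, hM⟩ : ∃ M : ℕ → ℝ, M = fun i =>
    √(T * ((∑ x ∈ Ioc n (n + N), ‖G i x‖ ^ 2) / N)) := ⟨_, rfl⟩
  have hM0 : ∀ i, 0 ≤ M i := by
    intro i
    rw [hM]
    exact Real.sqrt_nonneg _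
  have hMs : ∀ i, M i ^ 2 = T * ((∑ x ∈ Ioc n (n + N), ‖G i x‖ ^ 2) / N) := by
    intro i
    rw [hM]
    exact Real.sq_sqrt (by positivity)
  have hval : ∀ x : ℕ, fs k b α x = ∑ i ∈ range r, ee (γ i * x) * G i x := by
    intro x
    have h1 : ∀ i ∈ range r, ee (γ i * x) * G i x =
        ∑ l ∈ range k, (if c l = i then b l * ee (γ i * x) * ee (δ l * x) else 0) := by
      intro i _
      rw [hG, hB]
      simp only
      unfold fs
      rw [mul_sum]
      apply sum_congr rfl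
      intro l _
      beta_reduce
      by_cases hci : c l = i
      · rw [if_pos hci, if_pos hci]; ring
      · rw [if_neg hci, if_neg hci]; ring
    rw [sum_congr rfl h1, sum_comm]
    unfold fs
    apply sum_congr rfl
    intro l hl
    rw [mem_range] at hl
    by_cases hb : b l = 0
    · rw [hb, zero_mul]
      symm
      apply sum_eq_zero
      intro i _
      simp
    · obtain ⟨hc1, -⟩ := hc l hl hb
      rw [sum_ite_eq (range r) (c l)]
      rw [if_pos (mem_range.2 hc1), mul_assoc, ← ee_add]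
      have h2 : α l * (x : ℝ) = γ (c l) * x + δ l * x + ((round (α l - γ (c l)) : ℤ) : ℝ) * x := by
        rw [hδ]
        simp only
        rw [if_pos ⟨hl, hb⟩]
        ring
      rw [h2, ee_add (γ (c l) * x + δ l * x), ee_int_mul, mul_one]
  have hsup : ∀ i, ∀ x ∈ Ioc n (n + N), ‖G i x‖ ≤ M i := by
    intro i x hx
    have h1 := tur k N n (B i) δ hk (by omega) x hx
    have h2 : ‖G i x‖ ^ 2 ≤ M i ^ 2 := by
      rw [hMs, hG, hT]
      exact h1
    exact abs_le_of_sq_le_sq' h2 (hM0 i) |>.2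
  have hstep : ∀ i, ∀ x ∈ Ioo n (n + N), ‖G i (x + 1) - G i x‖ ≤ C / ((N - 1 : ℕ) : ℝ) * M i := by
    intro i x hx
    rw [mem_Ioo] at hx
    have h1 := hbrn (N - 1) (n + 1) (B i) δ (M i) (by omega) (fun l _ => by
      refine (hδ1 l).trans ?_
      rw [div_le_div_iff₀ hN0 hN1]
      have hNN : ((N - 1 : ℕ) : ℝ) ≤ N := by exact_mod_cast Nat.sub_le N 1
      nlinarith) (fun y hy1 hy2 => by
      have := hsup i y (by rw [mem_Ioc]; omega)
      rw [hG] at this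
      exact this) x (by omega) (by omega)
    rw [hG]
    exact h1
  have hC0 : (0 : ℝ) < C := by linarith
  refine ⟨G, M, hval, hM0, hsup, ?_, ?_⟩
  · intro i
    refine (sum_le_sum (hstep i)).trans ?_
    rw [sum_const, Nat.card_Ioo, nsmul_eq_mul, show n + N - n - 1 = N - 1 by omega]
    have h1 : ((N - 1 : ℕ) : ℝ) * (C / ((N - 1 : ℕ) : ℝ) * M i) = C * M i := by
      field_simp
    rw [h1]
    apply mul_le_mul_of_nonneg_right _ (hM0 i)
    have : 0 ≤ (r + 1) * T := by positivity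
    linarith
  -- the mean square
  obtain ⟨Λ, hΛ⟩ : ∃ Λ : ℝ, Λ = (r + 1) * (1 + 2 * C) * T := ⟨_, rfl⟩
  have hΛ0 : 0 < Λ := by rw [hΛ]; positivity
  rw [← hΛ] at hsep
  have hcross : ∀ i ∈ range r, ∀ j ∈ range r, i ≠ j →
      ‖∑ x ∈ Ioc n (n + N), G i x * (starRingEnd ℂ) (G j x) * ee ((γ i - γ j) * x)‖ ≤
        (1 + 2 * C) * (N / (2 * Λ)) * 2 * (M i * M j) := by
    intro i hi j hj hij
    have hs := hsep i (mem_range.1 hi) j (mem_range.1 hj) hij
    have hnd : 0 < nd (γ i - γ j) := lt_of_lt_of_le (by positivity) hs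
    have h1 := abel (N := N) (n := n) (H := fun x => G i x * (starRingEnd ℂ) (G j x))
      (S := M i * M j) (D := 2 * (C / ((N - 1 : ℕ) : ℝ)) * (M i * M j)) (θ := γ i - γ j)
      (by omega) (mul_nonneg (hM0 i) (hM0 j)) (by
        have := mul_nonneg (hM0 i) (hM0 j)
        positivity) hnd (by
        intro x hx
        rw [norm_mul, Complex.norm_conj]
        exact mul_le_mul (hsup i x hx) (hsup j x hx) (norm_nonneg _) (hM0 i)) (by
        intro x hx
        have hx1 : x ∈ Ioc n (n + N) := by rw [mem_Ioo] at hx; rw [mem_Ioc]; omega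
        have hx2 : x + 1 ∈ Ioc n (n + N) := by rw [mem_Ioo] at hx; rw [mem_Ioc]; omega
        have e1 : G i (x + 1) * (starRingEnd ℂ) (G j (x + 1)) - G i x * (starRingEnd ℂ) (G j x) =
            (G i (x + 1) - G i x) * (starRingEnd ℂ) (G j (x + 1)) +
              G i x * (starRingEnd ℂ) (G j (x + 1) - G j x) := by
          rw [map_sub]; ring
        rw [e1]
        refine (norm_add_le _ _).trans ?_
        rw [norm_mul, norm_mul, Complex.norm_conj, Complex.norm_conj]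
        have a1 := mul_le_mul (hstep i x hx) (hsup j (x + 1) hx2) (norm_nonneg _)
          (by have := hM0 i; positivity)
        have a2 := mul_le_mul (hsup i x hx1) (hstep j x hx) (norm_nonneg _) (hM0 i)
        refine (add_le_add a1 a2).trans (le_of_eq ?_)
        ring)
    refine h1.trans ?_
    have h2 : 1 / (2 * nd (γ i - γ j)) ≤ N / (2 * Λ) := by
      rw [div_le_div_iff₀ (by positivity) (by positivity)]
      rw [div_le_iff₀ hN0] at hs
      linarith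
    have h3 : M i * M j + N * (2 * (C / ((N - 1 : ℕ) : ℝ)) * (M i * M j)) ≤
        (1 + 2 * C) * 2 * (M i * M j) := by
      have h4 : (N : ℝ) * (2 * (C / ((N - 1 : ℕ) : ℝ)) * (M i * M j)) =
          (N / ((N - 1 : ℕ) : ℝ)) * (2 * C) * (M i * M j) := by
        field_simp
      have h5 : (N : ℝ) / ((N - 1 : ℕ) : ℝ) ≤ 2 := by
        rw [div_le_iff₀ hN1]
        exact hN3
      have h6 : 0 ≤ M i * M j := mul_nonneg (hM0 i) (hM0 j)
      rw [h4]
      have h7 : (N / ((N - 1 : ℕ) : ℝ)) * (2 * C) * (M i * M j) ≤ 2 * (2 * C) * (M i * M j) := by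
        gcongr
      nlinarith
    have h8 : 0 ≤ (1 + 2 * C) * 2 * (M i * M j) := by
      have := mul_nonneg (hM0 i) (hM0 j)
      positivity
    calc (M i * M j + N * (2 * (C / ((N - 1 : ℕ) : ℝ)) * (M i * M j))) *
          (1 / (2 * nd (γ i - γ j)))
        ≤ ((1 + 2 * C) * 2 * (M i * M j)) * (N / (2 * Λ)) :=
          mul_le_mul h3 h2 (by positivity) h8
      _ = _ := by ring
  -- the expansion
  have hexp : ∑ x ∈ Ioc n (n + N), ‖fs k b α x‖ ^ 2 =
      (∑ i ∈ range r, ∑ j ∈ range r, ∑ x ∈ Ioc n (n + N),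
        G i x * (starRingEnd ℂ) (G j x) * ee ((γ i - γ j) * x)).re := by
    have e1 : ∀ x ∈ Ioc n (n + N), ‖fs k b α x‖ ^ 2 =
        (∑ i ∈ range r, ∑ j ∈ range r, G i x * (starRingEnd ℂ) (G j x) *
          ee ((γ i - γ j) * x)).re := by
      intro x _
      have e2 : ∑ i ∈ range r, ∑ j ∈ range r, G i x * (starRingEnd ℂ) (G j x) *
          ee ((γ i - γ j) * x) = fs k b α x * (starRingEnd ℂ) (fs k b α x) := by
        rw [hval x, map_sum, sum_mul_sum]
        apply sum_congr rfl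
        intro i _
        apply sum_congr rfl
        intro j _
        rw [map_mul, show (γ i - γ j) * (x : ℝ) = γ i * x + -(γ j * x) by ring, ee_add,
          ← conj_ee]
        ring
      rw [e2, Complex.mul_conj, Complex.normSq_eq_norm_sq, Complex.ofReal_re]
    rw [sum_congr rfl e1, ← Complex.re_sum]
    congr 1
    rw [sum_comm]
    apply sum_congr rfl
    intro i _
    rw [sum_comm]
  have hdiag : ∀ i, ∑ x ∈ Ioc n (n + N), G i x * (starRingEnd ℂ) (G i x) *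
      ee ((γ i - γ i) * x) = ((N * M i ^ 2 / T : ℝ) : ℂ) := by
    intro i
    rw [hMs]
    have e1 : (N : ℝ) * (T * ((∑ x ∈ Ioc n (n + N), ‖G i x‖ ^ 2) / N)) / T =
        ∑ x ∈ Ioc n (n + N), ‖G i x‖ ^ 2 := by
      field_simp
    rw [e1]
    push_cast
    apply sum_congr rfl
    intro x _
    rw [sub_self, zero_mul, Complex.mul_conj, Complex.normSq_eq_norm_sq]
    unfold ee
    simp
  have hlow : ∑ i ∈ range r, N * M i ^ 2 / T -
      ∑ i ∈ range r, ∑ j ∈ range r, (1 + 2 * C) * (N / (2 * Λ)) * 2 * (M i * M j) ≤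
      ∑ x ∈ Ioc n (n + N), ‖fs k b α x‖ ^ 2 := by
    rw [hexp, Complex.re_sum, ← sum_sub_distrib]
    apply sum_le_sum
    intro i hi
    rw [Complex.re_sum]
    have h1 : ∀ j ∈ range r, (if j = i then N * M i ^ 2 / T else 0) -
        (1 + 2 * C) * (N / (2 * Λ)) * 2 * (M i * M j) ≤
        (∑ x ∈ Ioc n (n + N), G i x * (starRingEnd ℂ) (G j x) * ee ((γ i - γ j) * x)).re := by
      intro j hj
      have h9 : 0 ≤ (1 + 2 * C) * (N / (2 * Λ)) * 2 * (M i * M j) := by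
        have := mul_nonneg (hM0 i) (hM0 j)
        positivity
      split_ifs with h2
      · subst h2
        rw [hdiag, Complex.ofReal_re]
        linarith
      · have h3 := hcross i hi j hj (Ne.symm h2)
        have h4 := (abs_le.1 (Complex.abs_re_le_norm (∑ x ∈ Ioc n (n + N),
          G i x * (starRingEnd ℂ) (G j x) * ee ((γ i - γ j) * x)))).1
        linarith
    have h2 := sum_le_sum h1
    rw [sum_sub_distrib, sum_ite_eq' (range r) i, if_pos hi] at h2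
    exact h2
  have hmm : ∑ i ∈ range r, ∑ j ∈ range r, (1 + 2 * C) * (N / (2 * Λ)) * 2 * (M i * M j) ≤
      (1 + 2 * C) * (N / (2 * Λ)) * 2 * (r * ∑ i ∈ range r, M i ^ 2) := by
    have e1 : ∑ i ∈ range r, ∑ j ∈ range r, (1 + 2 * C) * (N / (2 * Λ)) * 2 * (M i * M j) =
        (1 + 2 * C) * (N / (2 * Λ)) * 2 * (∑ i ∈ range r, M i) ^ 2 := by
      rw [sq, sum_mul_sum, mul_sum]
      apply sum_congr rfl
      intro i _
      rw [mul_sum]
    rw [e1]
    apply mul_le_mul_of_nonneg_left _ (by positivity)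
    have := sq_sum_le_card_mul_sum_sq (s := range r) (f := M)
    rwa [card_range] at this
  obtain ⟨Z, hZ⟩ : ∃ Z : ℝ, Z = ∑ i ∈ range r, M i ^ 2 := ⟨_, rfl⟩
  have hZ0 : 0 ≤ Z := by rw [hZ]; exact sum_nonneg fun _ _ => by positivity
  have h1 : ∑ i ∈ range r, N * M i ^ 2 / T = N / T * Z := by
    rw [hZ, mul_sum]
    apply sum_congr rfl
    intro i _
    ring
  rw [← hZ] at hmm ⊢
  rw [h1] at hlow
  have h2 : (1 + 2 * C) * (N / (2 * Λ)) * 2 * (r * Z) ≤ N / T * Z * (r / (r + 1)) := by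
    rw [hΛ]
    apply le_of_eq
    field_simp
  obtain ⟨Y, hY⟩ : ∃ Y : ℝ, Y = ∑ x ∈ Ioc n (n + N), ‖fs k b α x‖ ^ 2 := ⟨_, rfl⟩
  rw [← hY] at hlow ⊢
  have h3 : N / T * Z * (1 / (r + 1)) ≤ Y := by
    have e1 : N / T * Z * (1 / (r + 1)) = N / T * Z - N / T * Z * (r / (r + 1)) := by
      field_simp
      ring
    rw [e1]
    linarith
  have h4 : Z ≤ ((r + 1) * T) * (Y / N) := by
    have e1 : Z = ((r + 1) * T) * ((N / T * Z * (1 / (r + 1))) / N) := by
      field_simp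
    rw [e1]
    gcongr
  have hY0 : 0 ≤ Y / N := by
    rw [hY]; positivity
  have h5 : (r + 1) * T ≤ ((r + 1) * T + C) ^ 2 := by
    have a1 : 1 ≤ (r + 1) * T := by nlinarith
    nlinarith
  exact h4.trans (mul_le_mul_of_nonneg_right h5 hY0)

end Pool.Agent.H70.G0
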