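import Pool.Agent.H70.G0.NFC
import Pool.Agent.H37.G9.NRS
import Pool.Agent.H93.HB.Targets
import Pool.Agent.H48.GSW.Tls
import Pool.Agent.H20.ENM.QMS

/-!
# Theorem (H0), MP_c59857_nt: restricted families as families of one block
-/

set_option autoImplicit false

open Finset Pool.Agent.H6.N4D Pool.Agent.H93 Pool.Agent.H93.GS Pool.Agent.H6.GS2
open Pool.Agent.H6.G9 Pool.Agent.H6.G0 Pool.Agent.H56.HB
open Pool.Agent.H93.HB (fw FC)
open Pool.Agent.H93.ES (wm DR)

namespace Pool.Agent.H70.G0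

open Classical in
/-- the family at the places of the window `(n, n + 2 ^ m]`, without the primes with a small mean
square -/
noncomputable def rel (P m n : ℕ) (φ : ℕ → ℕ → ℝ) (u : ℕ → ℕ → ℂ) (j q : ℕ) : ℂ :=
  if ((1 : ℝ) / 2) ^ (m / 1000) ≤ ar 1 (2 ^ m) n (fun x => ‖(fam P φ u q).f x‖ ^ 2) then
    u j q * ee (φ j q * ((n + 1 : ℕ) : ℝ))
  else 0

lemma fe_keep {P m n q : ℕ} {φ : ℕ → ℕ → ℝ} {u : ℕ → ℕ → ℂ}
    (h : ((1 : ℝ) / 2) ^ (m / 1000) ≤ ar 1 (2 ^ m) n (fun x => ‖(fam P φ u q).f x‖ ^ 2)) :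
    fe P φ (rel P m n φ u) q =
      fe P φ (fun j q => u j q * ee (φ j q * ((n + 1 : ℕ) : ℝ))) q := by
  funext t
  unfold fe
  apply sum_congr rfl
  intro j _
  simp only
  unfold rel
  rw [if_pos h]

lemma fe_drop {P m n q : ℕ} {φ : ℕ → ℕ → ℝ} {u : ℕ → ℕ → ℂ}
    (h : ¬ ((1 : ℝ) / 2) ^ (m / 1000) ≤ ar 1 (2 ^ m) n (fun x => ‖(fam P φ u q).f x‖ ^ 2)) :
    fe P φ (rel P m n φ u) q = fun _ => 0 := by
  funext t
  unfold fe
  apply sum_eq_zero
  intro j _
  unfold rel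
  rw [if_neg h, zero_mul]

lemma tx_cx (lam : ℕ → ℝ) (P m n q : ℕ) (φ : ℕ → ℕ → ℝ) (u : ℕ → ℕ → ℂ) :
    cx (fun t => lam (n + 1 + t)) m q (n + 1)
      (fe P φ (fun j q => u j q * ee (φ j q * ((n + 1 : ℕ) : ℝ))) q) =
      tx lam q (2 ^ m) n (fam P φ u q) := by
  unfold tx ac cx wm
  have h1 : (Ioc n (n + 2 ^ m)).filter (fun x => 1 ∣ x) = Ioc n (n + 2 ^ m) :=
    filter_true_of_mem fun m _ => one_dvd m
  rw [h1, sum_Ioc_shift]
  push_cast
  rw [mul_one]
  congr 1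
  apply sum_congr rfl
  intro t _
  have h2 := fe_shift P φ u n q t
  push_cast at h2
  rw [h2]
  unfold EB.D DR
  ring

lemma tx_le {lam : ℕ → ℝ} (hl : ∀ n, |lam n| ≤ 1) (q N n : ℕ) (F : Ex) :
    ‖tx lam q N n F‖ ≤ ar q N n (fun x => ‖F.f x‖) + ar 1 N n (fun x => ‖F.f x‖) := by
  unfold tx
  have h1 : (fun m => (EB.D q m : ℂ) * lam m * (starRingEnd ℂ) (F.f m)) =
      fun m => (EB.D q m : ℂ) * (lam m * (starRingEnd ℂ) (F.f m)) := by
    funext m; ring
  rw [h1, Pool.Agent.H37.G9.nrs_split]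
  refine (norm_sub_le _ _).trans ?_
  have h2 : ∀ q', ‖ac q' N n (fun m => (lam m : ℂ) * (starRingEnd ℂ) (F.f m))‖ ≤
      ar q' N n (fun x => ‖F.f x‖) := by
    intro q'
    refine (norm_ac_le _ _ _ _).trans ?_
    apply ar_mono
    intro x _ _
    rw [norm_mul, Complex.norm_conj, Complex.norm_real, Real.norm_eq_abs]
    exact mul_le_of_le_one_left (norm_nonneg _) (hl x)
  exact add_le_add (h2 q) (h2 1)

lemma ar_norm_le {q N n : ℕ} (hq : 1 ≤ q) (hqN : q ≤ N) (F : ℕ → ℂ) {ε : ℝ} (hε : 0 < ε) :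
    ar q N n (fun x => ‖F x‖) ≤ ε + 1 / (2 * ε) * ar q N n (fun x => ‖F x‖ ^ 2) := by
  have h1 : ar q N n (fun x => ‖F x‖) ≤
      ar q N n (fun x => ε / 2 * 1 + 1 / (2 * ε) * ‖F x‖ ^ 2) := by
    apply ar_mono
    intro x _ _
    have e1 : ε / 2 * 1 + 1 / (2 * ε) * ‖F x‖ ^ 2 - ‖F x‖ = (ε - ‖F x‖) ^ 2 / (2 * ε) := by
      field_simp
      ring
    have e2 : 0 ≤ (ε - ‖F x‖) ^ 2 / (2 * ε) := by positivity
    linarith
  refine h1.trans ?_
  rw [ar_add, ar_mul, ar_mul]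
  have h2 := ar_one_le q N n hq (hq.trans hqN)
  have hN0 : (0 : ℝ) < N := by exact_mod_cast (hq.trans hqN)
  have h3 : (q : ℝ) / N ≤ 1 := by
    rw [div_le_one hN0]
    exact_mod_cast hqN
  have h4 : ε / 2 * ar q N n (fun _ => 1) ≤ ε / 2 * 2 := by
    apply mul_le_mul_of_nonneg_left _ (by positivity)
    linarith
  linarith

/-- FCB. Restricted families as families of one block. -/
theorem fcb (P : ℕ) : ∃ (V C : ℝ) (m₁ : ℕ), 1 ≤ V ∧ 0 < C ∧ ∀ (m n : ℕ) (φ : ℕ → ℕ → ℝ)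
    (u : ℕ → ℕ → ℂ), m₁ ≤ m → AdR P m n φ u →
    FC m P V φ (rel P m n φ u) ∧
    ∀ lam : ℕ → ℝ, (∀ n, |lam n| ≤ 1) → fv lam m n P φ u ≤
      fw (fun t => lam (n + 1 + t)) m (n + 1) P φ (rel P m n φ u) + C * (1 / 2) ^ (m / 2000) := by
  obtain ⟨V, m₀, hV, hnf⟩ := nfc P
  obtain ⟨mN, hN⟩ := Pool.Agent.H37.G9.pf_NRS
  obtain ⟨mQ, hQ⟩ := Pool.Agent.H20.ENM.pf_QMS
  have hP0 : (0 : ℝ) ≤ P := Nat.cast_nonneg P
  refine ⟨V, 3 * (2 * (4 + P ^ 4)), m₀ + mN + mQ + 1, hV, by positivity, ?_⟩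
  intro m n φ u hm hA
  have hms : ∀ F : ℕ → ℂ, 0 ≤ ms m F := by
    intro F
    unfold ms
    positivity
  constructor
  · have h0 := hnf m n φ u (by omega) hA
    refine ⟨⟨?_, hA.ad.nc, ?_⟩, ?_, ?_⟩
    · intro j q
      unfold rel
      split_ifs
      · exact h0.cb j q
      · rw [norm_zero]; exact hP0
    · obtain ⟨γ, hγ⟩ := h0.nf
      refine ⟨γ, fun q hq => ?_⟩
      by_cases h : ((1 : ℝ) / 2) ^ (m / 1000) ≤
          ar 1 (2 ^ m) n (fun x => ‖(fam P φ u q).f x‖ ^ 2)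
      · rw [fe_keep h]
        have e1 : ∀ j, rel P m n φ u j q = u j q * ee (φ j q * ((n + 1 : ℕ) : ℝ)) := by
          intro j
          unfold rel
          rw [if_pos h]
        simp only [e1]
        exact hγ q hq
      · right
        have e1 : ∑ j ∈ range P, ‖rel P m n φ u j q‖ = 0 := by
          apply sum_eq_zero
          intro j _
          unfold rel
          rw [if_neg h, norm_zero]
        rw [e1]
        exact mul_nonneg (by linarith) (hms _)
    · intro q hq i hi j hj hi0 hj0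
      have h1 : ∀ j, rel P m n φ u j q ≠ 0 → u j q ≠ 0 := by
        intro j hj h
        apply hj
        unfold rel
        rw [h, zero_mul]
        split_ifs <;> rfl
      exact hA.ad.cl q hq i hi j hj (h1 i hi0) (h1 j hj0)
    · intro q _
      by_cases h : ((1 : ℝ) / 2) ^ (m / 1000) ≤
          ar 1 (2 ^ m) n (fun x => ‖(fam P φ u q).f x‖ ^ 2)
      · right
        rw [fe_keep h, ms_shift]
        exact h
      · left
        intro j _
        unfold rel
        rw [if_neg h]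
  · intro lam hl
    unfold fv fw
    obtain ⟨-, hS⟩ := hQ m (by omega)
    obtain ⟨ε, hε⟩ : ∃ ε : ℝ, ε = (1 / 2) ^ (m / 2000) := ⟨_, rfl⟩
    have hε0 : 0 < ε := by rw [hε]; positivity
    have hε2 : ((1 : ℝ) / 2) ^ (m / 1000) ≤ ε * ε := by
      rw [hε, ← pow_add]
      exact pow_le_pow_of_le_one (by norm_num) (by norm_num) (by omega)
    have key : ∀ q ∈ EB.QQ m, 1 / (q : ℝ) * (2 * (tx lam q (2 ^ m) n (fam P φ u q)).re -
        ar 1 (2 ^ m) n (fun x => ‖(fam P φ u q).f x‖ ^ 2)) ≤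
        1 / (q : ℝ) * (2 * (cx (fun t => lam (n + 1 + t)) m q (n + 1)
          (fe P φ (rel P m n φ u) q)).re - ms m (fe P φ (rel P m n φ u) q)) +
        1 / (q : ℝ) * (2 * (4 + P ^ 4) * ε) := by
      intro q hq
      obtain ⟨-, hq1, -, -, hqN, -⟩ := Pool.Agent.H48.GSW.ong_q hq
      rw [← mul_add]
      apply mul_le_mul_of_nonneg_left _ (by positivity : (0 : ℝ) ≤ 1 / (q : ℝ))
      by_cases h : ((1 : ℝ) / 2) ^ (m / 1000) ≤
          ar 1 (2 ^ m) n (fun x => ‖(fam P φ u q).f x‖ ^ 2)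
      · rw [fe_keep h, tx_cx, ms_shift]
        have : 0 ≤ 2 * (4 + (P : ℝ) ^ 4) * ε := by positivity
        linarith
      · have e1 : cx (fun t => lam (n + 1 + t)) m q (n + 1)
            (fe P φ (rel P m n φ u) q) = 0 := by
          rw [fe_drop h]
          unfold cx wm
          simp
        have e2 : ms m (fe P φ (rel P m n φ u) q) = 0 := by
          rw [fe_drop h]
          unfold ms
          simp
        rw [e1, e2]
        push Not at h
        obtain ⟨Y, hY⟩ : ∃ Y, Y = ar 1 (2 ^ m) n (fun x => ‖(fam P φ u q).f x‖ ^ 2) :=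
          ⟨_, rfl⟩
        rw [← hY] at h ⊢
        have hY0 : 0 ≤ Y := by rw [hY]; exact ar_nonneg _ _ _ fun x => by positivity
        have hYe : Y ≤ ε * ε := h.le.trans hε2
        have a1 := tx_le hl q (2 ^ m) n (fam P φ u q)
        have a2 := ar_norm_le (n := n) hq1 hqN (fam P φ u q).f hε0
        have a3 := ar_norm_le (n := n) le_rfl (Nat.one_le_two_pow (n := m)) (fam P φ u q).f hε0
        rw [← hY] at a3
        have a4 := hN m (2 ^ m) n q (fam P φ u q) (by omega) (by omega) hq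
          (fun i hi j hj hi0 hj0 => hA.ad.cl q hq i hi j hj hi0 hj0)
        have a5 : (fam P φ u q).nm ^ 2 ≤ (P : ℝ) ^ 4 := by
          have b1 : (fam P φ u q).nm ≤ (P : ℝ) * P := by
            unfold Ex.nm fam
            refine (sum_le_sum fun j _ => hA.ad.cb j q).trans (le_of_eq ?_)
            rw [sum_const, card_range, nsmul_eq_mul]
          calc (fam P φ u q).nm ^ 2 ≤ ((P : ℝ) * P) ^ 2 := by
                have := nm_nonneg (fam P φ u q)
                gcongr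
            _ = (P : ℝ) ^ 4 := by ring
        have a6 : ((1 : ℝ) / 2) ^ (m / 300) ≤ ε * ε := by
          refine le_trans ?_ hε2
          exact pow_le_pow_of_le_one (by norm_num) (by norm_num) (by omega)
        have a7 : ar q (2 ^ m) n (fun x => ‖(fam P φ u q).f x‖ ^ 2) ≤ (1 + P ^ 4) * (ε * ε) := by
          have b1 := (abs_le.1 a4).2
          unfold nrm at b1
          rw [← hY] at b1
          have b2 : (fam P φ u q).nm ^ 2 * ((1 : ℝ) / 2) ^ (m / 300) ≤ P ^ 4 * (ε * ε) :=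
            mul_le_mul a5 a6 (by positivity) (by positivity)
          linarith
        have a8 : 1 / (2 * ε) * ar q (2 ^ m) n (fun x => ‖(fam P φ u q).f x‖ ^ 2) ≤
            (1 + P ^ 4) / 2 * ε := by
          calc 1 / (2 * ε) * ar q (2 ^ m) n (fun x => ‖(fam P φ u q).f x‖ ^ 2)
              ≤ 1 / (2 * ε) * ((1 + P ^ 4) * (ε * ε)) :=
                mul_le_mul_of_nonneg_left a7 (by positivity)
            _ = (1 + P ^ 4) / 2 * ε := by field_simp
        have a9 : 1 / (2 * ε) * Y ≤ 1 / 2 * ε := by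
          calc 1 / (2 * ε) * Y ≤ 1 / (2 * ε) * (ε * ε) :=
                mul_le_mul_of_nonneg_left hYe (by positivity)
            _ = 1 / 2 * ε := by field_simp
        have a10 := Complex.re_le_norm (tx lam q (2 ^ m) n (fam P φ u q))
        have a11 : (0 : ℝ) ≤ P ^ 4 * ε := by positivity
        simp only [Complex.zero_re, mul_zero, sub_zero, zero_add]
        nlinarith
    have h1 := sum_le_sum key
    rw [sum_add_distrib, ← sum_mul] at h1
    have h2 : (∑ q ∈ EB.QQ m, 1 / (q : ℝ)) * (2 * (4 + (P : ℝ) ^ 4) * ε) ≤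
        3 * (2 * (4 + P ^ 4)) * ε := by
      calc (∑ q ∈ EB.QQ m, 1 / (q : ℝ)) * (2 * (4 + (P : ℝ) ^ 4) * ε)
          ≤ 3 * (2 * (4 + (P : ℝ) ^ 4) * ε) :=
            mul_le_mul_of_nonneg_right hS (by positivity)
        _ = _ := by ring
    rw [← hε]
    linarith

end Pool.Agent.H70.G0
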